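import Pool.Agent.Y217.HK.Win

/-! Adjacent values give close images. -/

set_option autoImplicit false

namespace Pool.Agent.Y217.HK

open MeasureTheory Filter Topology Set

/-- three-term combination -/
theorem comb3 {d d1 d2 d3 K l : ℕ} (h : d ≤ d1 + d2 + d3) (h1 : (1 + d1) ^ (4 * K) ≤ l)
    (h2 : (1 + d2) ^ (4 * K) ≤ l) (h3 : (1 + d3) ^ (4 * K) ≤ l) (hl : 1 ≤ l) :
    (1 + d) ^ K ≤ l := by
  have h5 : 1 + d ≤ (1 + d1) * (1 + d2) * (1 + d3) := by
    have : (1 + d1) * (1 + d2) * (1 + d3) =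
      1 + (d1 + d2 + d3) + (d1 * d2 + d1 * d3 + d2 * d3 + d1 * d2 * d3) := by ring
    omega
  have h4 : ((1 + d) ^ K) ^ 4 ≤ l ^ 4 := by
    calc ((1 + d) ^ K) ^ 4 = (1 + d) ^ (4 * K) := by rw [← pow_mul, mul_comm]
      _ ≤ ((1 + d1) * (1 + d2) * (1 + d3)) ^ (4 * K) := Nat.pow_le_pow_left h5 _
      _ = (1 + d1) ^ (4 * K) * (1 + d2) ^ (4 * K) * (1 + d3) ^ (4 * K) := by
        rw [mul_pow, mul_pow]
      _ ≤ l * l * l := Nat.mul_le_mul (Nat.mul_le_mul h1 h2) h3
      _ ≤ l * l * l * l := Nat.le_mul_of_pos_right _ hl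
      _ = l ^ 4 := by ring
  exact (Nat.pow_le_pow_iff_left (by norm_num)).1 h4

theorem Fus.strict {b : Set ℕ} {ψ : Z → Z} {D' : Set Z} {z : Z} {l M : ℕ → ℕ}
    (h : Fus b ψ D' z l M) {n : ℕ → ℕ} (hn : ∀ k, l (n k + 1) ≤ n (k + 1)) : StrictMono n := by
  refine strictMono_nat_of_lt_succ fun k => ?_
  have h1 := h.2.1 (n k + 1)
  have h2 := hn k
  omega

/-- extend a dependent family along an injective sequence -/
theorem ext_dep {A : ℕ → Type} (g : ℕ → ℕ) (hg : Function.Injective g) (I : ∀ t, A (g t))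
    (z : ∀ c, A c) : ∃ e : ∀ c, A c, (∀ t, e (g t) = I t) ∧ ∀ c, c ∉ Set.range g → e c = z c := by
  classical
  refine ⟨fun c => if h : ∃ t, g t = c then h.choose_spec ▸ I h.choose else z c, ?_, ?_⟩
  · intro t
    have h : ∃ t', g t' = g t := ⟨t, rfl⟩
    show dite _ _ _ = _
    rw [dif_pos h]
    have key : ∀ t' (h' : g t' = g t), h' ▸ I t' = I t := by
      intro t' h'
      obtain rfl := hg h'
      rfl
    exact key _ _
  · intro c hc
    exact dif_neg hc

theorem adj (hA : JArith) (hW : JWin) : JAdj := by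
  classical
  intro a b ψ D' z l M hF hred n hn K
  obtain ⟨-, hLpos, -, -, -, hL2, -⟩ := hA
  have hsm := hF.strict hn
  obtain ⟨hput, hwin⟩ := hW b ψ D' z l M hF n hn
  by_contra hcon
  push Not at hcon
  let Bad : ∀ t, Fin (L (n (t + 1)) + 1) → Fin (L (n (t + 1)) + 1) → Prop := fun t i j =>
    (j : ℕ) = (i : ℕ) + 1 ∧ ∃ m, m ∈ b ∧ M (n t + 1) ≤ m ∧ m < M (n (t + 1) + 1) ∧
      L m < (1 + ds (ψ (Function.update z (n (t + 1)) i)) (ψ (Function.update z (n (t + 1)) j)) m) ^ K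
  have hex : ∀ t, ∃ p : Fin (L (n (t + 1)) + 1) × Fin (L (n (t + 1)) + 1),
      ((∃ i j, Bad t i j) → Bad t p.1 p.2) ∧ ((p.2 : ℕ) - (p.1 : ℕ)) + ((p.1 : ℕ) - (p.2 : ℕ)) ≤ 1 := by
    intro t
    by_cases h : ∃ i j, Bad t i j
    · obtain ⟨i, j, hij⟩ := h
      refine ⟨(i, j), fun _ => hij, ?_⟩
      have := hij.1
      show ((j : ℕ) - (i : ℕ)) + ((i : ℕ) - (j : ℕ)) ≤ 1
      omega
    · refine ⟨(0, 0), fun h' => absurd h' h, ?_⟩
      simp
  choose p hp1 hp2 using hex
  have hginj : Function.Injective fun t => n (t + 1) := by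
    intro t t' h
    have := hsm.injective h
    omega
  obtain ⟨e, he, he0⟩ := ext_dep (A := fun c => Fin (L c + 1)) (fun t => n (t + 1)) hginj
    (fun t => (p t).1) z
  obtain ⟨e', he', he0'⟩ := ext_dep (A := fun c => Fin (L c + 1)) (fun t => n (t + 1)) hginj
    (fun t => (p t).2) z
  have hdiff : ∀ c, ds (put (Set.range n) z e) (put (Set.range n) z e') c ≤ 1 := by
    intro c
    by_cases hc : c ∈ Set.range n
    · simp only [ds, put_mem hc]
      by_cases h : c ∈ Set.range fun t => n (t + 1)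
      · obtain ⟨t, rfl⟩ := h
        have h1 := he t
        have h2 := he' t
        have h3 := hp2 t
        simp only at h1 h2 ⊢
        rw [h1, h2]
        omega
      · rw [he0 c h, he0' c h]
        omega
    · simp only [ds, put_not_mem hc]
      omega
  have hrel : Rel a (put (Set.range n) z e) (put (Set.range n) z e') := by
    intro K'
    refine ⟨K', fun c hc _ => ?_⟩
    calc (1 + ds (put (Set.range n) z e) (put (Set.range n) z e') c) ^ K'
        ≤ 2 ^ K' := Nat.pow_le_pow_left (by have := hdiff c; omega) _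
      _ ≤ 2 ^ (2 * (c + 1)) := Nat.pow_le_pow_right (by norm_num) (by omega)
      _ ≤ L c := hL2 c
  obtain ⟨N, hN⟩ := hred _ (hput e) _ (hput e') hrel (4 * K)
  -- a large bad index
  obtain ⟨t, ht, i, j, hij, m, hmb, hm1, hm2, hbad⟩ := hcon (max N (4 * K))
  obtain ⟨-, m, hmb, hm1, hm2, hbad⟩ := hp1 t ⟨i, j, hij, m, hmb, hm1, hm2, hbad⟩
  have hge : t ≤ n t := hsm.id_le t
  have hMm : n t + 1 ≤ m := le_trans (hF.2.2.1 _) hm1
  have hNle : N ≤ m := by
    have := le_max_left N (4 * K)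
    omega
  have h4K : 4 * K ≤ n t + 1 := by
    have := le_max_right N (4 * K)
    omega
  have hb1 := hwin e t m hmb hm1 hm2
  have hb2 := hwin e' t m hmb hm1 hm2
  have hb3 := hN m hNle hmb
  have h1 := he t
  have h2 := he' t
  rw [h1] at hb1
  rw [h2] at hb2
  have hfin := comb3 (K := K) (l := L m)
    (d := ds (ψ (Function.update z (n (t + 1)) (p t).1)) (ψ (Function.update z (n (t + 1)) (p t).2)) m)
    (d1 := ds (ψ (put (Set.range n) z e)) (ψ (Function.update z (n (t + 1)) (p t).1)) m)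
    (d2 := ds (ψ (put (Set.range n) z e)) (ψ (put (Set.range n) z e')) m)
    (d3 := ds (ψ (put (Set.range n) z e')) (ψ (Function.update z (n (t + 1)) (p t).2)) m)
    (by
      have t1 := ds_tri (ψ (Function.update z (n (t + 1)) (p t).1)) (ψ (put (Set.range n) z e))
        (ψ (Function.update z (n (t + 1)) (p t).2)) m
      have t2 := ds_tri (ψ (put (Set.range n) z e)) (ψ (put (Set.range n) z e'))
        (ψ (Function.update z (n (t + 1)) (p t).2)) m
      rw [ds_comm (ψ (Function.update z (n (t + 1)) (p t).1)) (ψ (put (Set.range n) z e))] at t1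
      omega)
    (le_trans (Nat.pow_le_pow_right (by omega) h4K) hb1) hb3
    (le_trans (Nat.pow_le_pow_right (by omega) h4K) hb2) (hLpos _)
  omega

end Pool.Agent.Y217.HK
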