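import Pool.Agent.Y217.HK.Inst

/-! Assembly: the negation of the bireducible Hjorth-Kechris conjecture from the pieces. -/

set_option autoImplicit false

namespace Pool.Agent.Y217.HK

open MeasureTheory Filter Topology Set

/-- the equivalence relation -/
def EE (C : Set ((ℕ → Bool) × (ℕ → ℕ))) (p q : C × Z) : Prop :=
  p.1.1.1 = q.1.1.1 ∧ Rel (fam p.1.1.1) p.2 q.2

theorem EE_equiv (hR : JRel) (C : Set ((ℕ → Bool) × (ℕ → ℕ))) : Equivalence (EE C) := by
  obtain ⟨h1, h2, h3, -⟩ := hR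
  refine ⟨fun p => ⟨rfl, h1 _ _⟩, ?_, ?_⟩
  · rintro p q ⟨h, h'⟩
    refine ⟨h.symm, ?_⟩
    rw [← h]
    exact h2 _ _ _ h'
  · rintro p q r ⟨h, h'⟩ ⟨g, g'⟩
    refine ⟨h.trans g, h3 _ _ _ _ h' ?_⟩
    rw [h]
    exact g'

theorem meas_ds {A : Type} [MeasurableSpace A] (f g : A → Z) (hf : Measurable f) (hg : Measurable g)
    (n : ℕ) : Measurable fun a => ds (f a) (g a) n := by
  have h1 : Measurable fun a => f a n := (measurable_pi_apply n).comp hf
  have h2 : Measurable fun a => g a n := (measurable_pi_apply n).comp hg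
  have h3 : Measurable fun p : Fin (L n + 1) × Fin (L n + 1) =>
      ((p.1 : ℕ) - (p.2 : ℕ)) + ((p.2 : ℕ) - (p.1 : ℕ)) := Measurable.of_discrete
  exact h3.comp (h1.prodMk h2)

theorem EE_meas (hFam : JFam) (C : Set ((ℕ → Bool) × (ℕ → ℕ))) :
    MeasurableSet {p : (C × Z) × (C × Z) | EE C p.1 p.2} := by
  obtain ⟨-, hF⟩ := hFam
  have hx1 : Measurable fun p : (C × Z) × (C × Z) => p.1.1.1.1 :=
    measurable_fst.comp (measurable_subtype_coe.comp (measurable_fst.comp measurable_fst))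
  have hx2 : Measurable fun p : (C × Z) × (C × Z) => p.2.1.1.1 :=
    measurable_fst.comp (measurable_subtype_coe.comp (measurable_fst.comp measurable_snd))
  have e1 : MeasurableSet {p : (C × Z) × (C × Z) | p.1.1.1.1 = p.2.1.1.1} :=
    measurableSet_eq_fun hx1 hx2
  have e2 : MeasurableSet {p : (C × Z) × (C × Z) | Rel (fam p.1.1.1.1) p.1.2 p.2.2} := by
    have : {p : (C × Z) × (C × Z) | Rel (fam p.1.1.1.1) p.1.2 p.2.2} =
        ⋂ K : ℕ, ⋃ N : ℕ, ⋂ n : ℕ, {p | N ≤ n → n ∈ fam p.1.1.1.1 →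
          (1 + ds p.1.2 p.2.2 n) ^ K ≤ L n} := by
      ext p
      simp only [Rel, mem_setOf_eq, mem_iInter, mem_iUnion]
    rw [this]
    refine MeasurableSet.iInter fun K => MeasurableSet.iUnion fun N => MeasurableSet.iInter fun n => ?_
    by_cases hN : N ≤ n
    · have a1 : MeasurableSet {p : (C × Z) × (C × Z) | n ∈ fam p.1.1.1.1} := hx1 (hF n)
      have a2 : MeasurableSet {p : (C × Z) × (C × Z) | (1 + ds p.1.2 p.2.2 n) ^ K ≤ L n} := by
        have hd := meas_ds (fun p : (C × Z) × (C × Z) => p.1.2) (fun p => p.2.2)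
          (measurable_snd.comp measurable_fst) (measurable_snd.comp measurable_snd) n
        exact hd (MeasurableSet.of_discrete (s := {d : ℕ | (1 + d) ^ K ≤ L n}))
      have : {p : (C × Z) × (C × Z) | N ≤ n → n ∈ fam p.1.1.1.1 →
          (1 + ds p.1.2 p.2.2 n) ^ K ≤ L n} = {p | n ∈ fam p.1.1.1.1}ᶜ ∪
          {p | (1 + ds p.1.2 p.2.2 n) ^ K ≤ L n} := by
        ext p
        simp only [mem_setOf_eq, mem_union, mem_compl_iff, hN, true_imp_iff]
        tauto
      rw [this]
      exact a1.compl.union a2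
    · have : {p : (C × Z) × (C × Z) | N ≤ n → n ∈ fam p.1.1.1.1 →
          (1 + ds p.1.2 p.2.2 n) ^ K ≤ L n} = univ := by
        ext p
        simp [hN]
      rw [this]
      exact MeasurableSet.univ
  exact e1.inter e2

theorem homog_discrete {B : Type} [TopologicalSpace B] [DiscreteTopology B] (a b : B) :
    ∃ h : B ≃ₜ B, h a = b := by
  classical
  exact ⟨Homeomorph.ofDiscrete (Equiv.swap a b), Equiv.swap_apply_left a b⟩

theorem homog_cantor (a b : ℕ → Bool) : ∃ h : (ℕ → Bool) ≃ₜ (ℕ → Bool), h a = b := by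
  choose h hh using fun i => homog_discrete (a i) (b i)
  exact ⟨Homeomorph.piCongrRight h, funext hh⟩

/-- `E_1` does not reduce to `EE` -/
theorem EE_not_E1 (hErg : JErg) (hE1 : JE1) (C : Set ((ℕ → Bool) × (ℕ → ℕ))) :
    ¬ ∃ f : (ℕ → unitInterval) → C × Z, Measurable f ∧
      ∀ x y : ℕ → unitInterval, (∃ N : ℕ, ∀ n ≥ N, x n = y n) ↔ EE C (f x) (f y) := by
  rintro ⟨F, hF, hFE⟩
  obtain ⟨j, hjc, hji⟩ : ∃ j : (ℕ → Bool) → unitInterval, Measurable j ∧ Function.Injective j := by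
    have hu : ¬ (univ : Set unitInterval).Countable := by
      intro h
      have h' : (Set.Icc (0 : ℝ) 1).Countable := by
        have := h.image (Subtype.val : unitInterval → ℝ)
        rwa [image_univ, Subtype.range_coe] at this
      exact Cardinal.Real.Icc_countable_iff.not.2 (by norm_num) h'
    obtain ⟨f, -, hf, hfi⟩ := isClosed_univ.exists_nat_bool_injection_of_not_countable hu
    exact ⟨f, hf.measurable, hfi⟩
  let J : Om → (ℕ → unitInterval) := fun x n => j (x n)
  have hJ : Measurable J := measurable_pi_iff.2 fun n => hjc.comp (measurable_pi_apply n)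
  have hψ : Measurable fun x : Om => F (J x) := hF.comp hJ
  have hE : ∀ x y : Om, Tl x y ↔ EE C (F (J x)) (F (J y)) := by
    intro x y
    rw [← hFE]
    constructor
    · rintro ⟨N, hN⟩
      exact ⟨N, fun n hn => congrArg j (hN n hn)⟩
    · rintro ⟨N, hN⟩
      exact ⟨N, fun n hn => hji (hN n hn)⟩
  have hφ : Measurable fun x : Om => (F (J x)).1.1.1 :=
    measurable_fst.comp (measurable_subtype_coe.comp (measurable_fst.comp hψ))
  obtain ⟨c, hc⟩ := hErg (fun _ => ℕ → Bool) (fun _ => homog_cantor)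
    (fun x : Om => (F (J x)).1.1.1) hφ (fun x y hxy => ((hE x y).1 hxy).1)
  refine hE1 (fam c) (fun x => (F (J x)).2) (measurable_snd.comp hψ) _ hc ?_
  intro x hx y hy
  have hx' : (F (J x)).1.1.1 = c := hx
  have hy' : (F (J y)).1.1.1 = c := hy
  rw [hE x y]
  unfold EE
  rw [hx', hy']
  exact ⟨fun h => h.2, fun h => ⟨rfl, h⟩⟩

theorem main (hR : JRel) (hFam : JFam) (hRig : JRig) (hErg : JErg) (hE1 : JE1) (hSA : JSelA)
    (hSB : JSelB) (hNM : JNM) :
    ¬ (∀ (X : Type) [MeasurableSpace X] [StandardBorelSpace X] (E : X → X → Prop),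
      Equivalence E → MeasurableSet {p : X × X | E p.1 p.2} →
      (¬ ∃ f : (ℕ → unitInterval) → X, Measurable f ∧
          ∀ x y : ℕ → unitInterval, (∃ N : ℕ, ∀ n ≥ N, x n = y n) ↔ E (f x) (f y)) →
      ∃ (G : Type) (_ : TopologicalSpace G) (_ : Group G) (_ : IsTopologicalGroup G)
        (_ : PolishSpace G)
        (Y : Type) (_ : TopologicalSpace Y) (_ : PolishSpace Y) (_ : MeasurableSpace Y)
        (_ : BorelSpace Y) (_ : MulAction G Y) (_ : ContinuousSMul G Y),
        (∃ f : X → Y, Measurable f ∧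
            ∀ x x' : X, E x x' ↔ ∃ g : G, f x' = g • f x) ∧
        (∃ h : Y → X, Measurable h ∧
            ∀ y y' : Y, (∃ g : G, y' = g • y) ↔ E (h y) (h y'))) := by
  intro H
  obtain ⟨C, hC, hCm⟩ := hNM
  have hCP : PolishSpace C := hC.polishSpace
  obtain ⟨G, tG, gG, tgG, pG, Y, tY, pY, mY, bY, aY, csY, ⟨f, hf, hfE⟩, ⟨h, hh, hhE⟩⟩ :=
    H (C × Z) (EE C) (EE_equiv hR C) (EE_meas hFam C) (EE_not_E1 hErg hE1 C)
  have hred : ∀ p q : C × Z, EE C p q ↔ EE C (h (f p)) (h (f q)) := fun p q => by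
    rw [hfE p q, hhE (f p) (f q)]
  have h3 : ∀ c : C, ∀ᶠ z in residual Z, ((h (f (c, z))).1).1.1 = c.1.1 := by
    intro c
    have hm : Measurable fun z : Z => h (f (c, z)) := hh.comp (hf.comp measurable_prodMk_left)
    have hinv : ∀ z w : Z, Tl z w → EE C (c, z) (c, w) := fun z w hzw => ⟨rfl, hR.2.2.2 _ _ _ hzw⟩
    obtain ⟨x', hx'⟩ := hErg (fun n => Fin (L n + 1)) (fun i => homog_discrete)
      (fun z : Z => (h (f (c, z))).1.1.1)
      (measurable_fst.comp (measurable_subtype_coe.comp (measurable_fst.comp hm)))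
      (fun z w hzw => ((hred _ _).1 (hinv z w hzw)).1)
    have hfin := hRig (fam c.1.1) (fam x') (fun z => (h (f (c, z))).2) (measurable_snd.comp hm) _ hx'
      (by
        intro z hz w hw
        have hz' : (h (f (c, z))).1.1.1 = x' := hz
        have hw' : (h (f (c, w))).1.1.1 = x' := hw
        have := hred (c, z) (c, w)
        unfold EE at this
        rw [hz', hw'] at this
        constructor
        · intro hr
          exact (this.1 ⟨rfl, hr⟩).2
        · intro hr
          exact (this.2 ⟨rfl, hr⟩).2)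
    have hxx := hFam.1 _ _ hfin
    filter_upwards [hx'] with z hz
    have hz' : (h (f (c, z))).1.1.1 = x' := hz
    rw [hz', hxx]
  obtain ⟨s, hs1, hs2, hs3⟩ := hSA C hC Z G Y f (fun y => (h y).1) hf (measurable_fst.comp hh)
    (fun c c' z hcc => (hfE (c, z) (c', z)).1 ⟨hcc, hR.1 _ _⟩)
    (fun g y => ((hhE y (g • y)).1 ⟨g, rfl⟩).1.symm) h3
  exact hCm (hSB C hC s hs1 hs2 hs3)

end Pool.Agent.Y217.HK
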