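import Pool.Agent.Y217.HK.Inst

/-! Three short pieces: Lusin-Souslin, a closed set with non-measurable projection, the family `fam`. -/

set_option autoImplicit false

namespace Pool.Agent.Y217.HK

open MeasureTheory Filter Topology Set TopologicalSpace

theorem selB : JSelB := by
  intro C hC s hs h1 h2
  have hCP : PolishSpace C := hC.polishSpace
  have hB : MeasurableSet {c : C | s c = c} := measurableSet_eq_fun hs measurable_id
  have hinj : InjOn (fun c : C => c.1.1) {c : C | s c = c} := by
    intro c hc c' hc' h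
    have hc : s c = c := hc
    have hc' : s c' = c' := hc'
    rw [← hc, ← hc']
    exact h1 c c' h
  have hm := hB.image_of_measurable_injOn (measurable_fst.comp measurable_subtype_coe) hinj
  have : Prod.fst '' C = (fun c : C => c.1.1) '' {c : C | s c = c} := by
    ext x
    constructor
    · rintro ⟨c, hc, rfl⟩
      exact ⟨s ⟨c, hc⟩, h1 _ _ (h2 _), h2 _⟩
    · rintro ⟨c, -, rfl⟩
      exact ⟨c.1, c.2, rfl⟩
  rw [this]
  exact hm

theorem nm : JNM := by
  classical
  obtain ⟨b, hbc, hbe, hb⟩ := TopologicalSpace.exists_countable_basis ((ℕ → Bool) × (ℕ → ℕ))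
  obtain ⟨B, hB⟩ : ∃ B : ℕ → Set ((ℕ → Bool) × (ℕ → ℕ)), b = Set.range B := by
    apply hbc.exists_eq_range
    rw [Set.nonempty_iff_ne_empty]
    rintro rfl
    have := hb.sUnion_eq
    simp at this
    exact (Set.empty_ne_univ this)
  have hBo : ∀ n, IsOpen (B n) := fun n => hb.isOpen (by rw [hB]; exact ⟨n, rfl⟩)
  let Ys : Set ((ℕ → Bool) × (ℕ → ℕ)) := {q | ∀ n, q.1 n = true → q ∉ B n}
  have hYs : IsClosed Ys := by
    have : Ys = ⋂ n, ({q : (ℕ → Bool) × (ℕ → ℕ) | q.1 n = true} ∩ B n)ᶜ := by
      ext q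
      simp only [Ys, Set.mem_setOf_eq, Set.mem_iInter, Set.mem_compl_iff, Set.mem_inter_iff,
        not_and]
    rw [this]
    refine isClosed_iInter fun n => IsOpen.isClosed_compl (IsOpen.inter ?_ (hBo n))
    have hcont : Continuous fun q : (ℕ → Bool) × (ℕ → ℕ) => q.1 n :=
      (continuous_apply n).comp continuous_fst
    exact (isOpen_discrete {true}).preimage hcont
  refine ⟨Ys, hYs, ?_⟩
  intro hmeas
  have hD := hmeas.compl.analyticSet
  obtain ⟨F, hF, hFD⟩ : ∃ F : Set ((ℕ → Bool) × (ℕ → ℕ)), IsClosed F ∧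
      ∀ x, x ∈ (Prod.fst '' Ys)ᶜ ↔ ∃ α, (x, α) ∈ F := by
    rw [AnalyticSet] at hD
    rcases hD with h0 | ⟨g, hg, hgr⟩
    · refine ⟨∅, isClosed_empty, fun x => ?_⟩
      rw [h0]; simp
    · refine ⟨{q | g q.2 = q.1}, isClosed_eq (hg.comp continuous_snd) continuous_fst,
        fun x => ?_⟩
      rw [← hgr]; rfl
  let c : ℕ → Bool := fun n => decide (B n ∩ F = ∅)
  have hc : ∀ q : (ℕ → Bool) × (ℕ → ℕ), (∀ n, c n = true → q ∉ B n) ↔ q ∈ F := by
    intro q
    constructor
    · intro h
      by_contra hq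
      obtain ⟨s, hs, hqs, hsF⟩ := hb.exists_subset_of_mem_open (show q ∈ Fᶜ from hq)
        hF.isOpen_compl
      rw [hB] at hs
      obtain ⟨n, rfl⟩ := hs
      refine h n ?_ hqs
      simp only [c, decide_eq_true_eq]
      rw [← Set.disjoint_iff_inter_eq_empty]
      exact Set.disjoint_left.2 fun z hz hz' => hsF hz hz'
    · intro hq n hn hqn
      simp only [c, decide_eq_true_eq] at hn
      have : q ∈ B n ∩ F := ⟨hqn, hq⟩
      rw [hn] at this
      exact this
  by_cases hcr : c ∈ Prod.fst '' Ys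
  · obtain ⟨⟨x, α⟩, hy, hx⟩ := hcr
    have hx : x = c := hx
    subst hx
    have h1 : (c, α) ∈ F := (hc (c, α)).1 hy
    exact ((hFD c).2 ⟨α, h1⟩) ⟨(c, α), hy, rfl⟩
  · obtain ⟨α, hα⟩ := (hFD c).1 hcr
    exact hcr ⟨(c, α), (hc (c, α)).2 hα, rfl⟩

theorem fam_code_mem {x y : ℕ → Bool} {l : ℕ}
    (h : Encodable.encode (List.ofFn fun i : Fin l => x i) ∈ fam y) : ∀ i < l, x i = y i := by
  obtain ⟨l', hl'⟩ := h
  have h1 := Encodable.encode_injective hl'
  have h2 : l' = l := by
    have := congrArg List.length h1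
    simpa using this
  subst h2
  have h3 := List.ofFn_injective h1
  intro i hi
  exact (congrFun h3 ⟨i, hi⟩).symm

theorem famL : JFam := by
  refine ⟨?_, ?_⟩
  · intro x y hfin
    by_contra hne
    obtain ⟨j, hj⟩ := Function.ne_iff.1 hne
    refine (?_ : (fam x \ fam y).Infinite) hfin
    refine Set.infinite_of_injective_forall_mem
      (f := fun t : ℕ => Encodable.encode (List.ofFn fun i : Fin (j + 1 + t) => x i)) ?_ ?_
    · intro t t' h
      have h1 := Encodable.encode_injective h
      have := congrArg List.length h1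
      simp only [List.length_ofFn] at this
      omega
    · intro t
      refine ⟨⟨_, rfl⟩, fun h => hj (fam_code_mem h j (by omega))⟩
  · intro n
    have : {x : ℕ → Bool | n ∈ fam x} = ⋃ l : ℕ, {x : ℕ → Bool |
        Encodable.encode (List.ofFn fun i : Fin l => x i) = n} := by
      ext x
      simp only [fam, mem_range, mem_setOf_eq, mem_iUnion]
    rw [this]
    refine MeasurableSet.iUnion fun l => ?_
    have h1 : Measurable fun x : ℕ → Bool => fun i : Fin l => x i :=
      measurable_pi_iff.2 fun i => measurable_pi_apply _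
    exact h1 (MeasurableSet.of_discrete (s := {v : Fin l → Bool |
      Encodable.encode (List.ofFn v) = n}))

end Pool.Agent.Y217.HK
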