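import Pool.Agent.Y217.HK.Inst

/-! Arithmetic of `L`, `P`, and `Rel` is an equivalence relation. -/

set_option autoImplicit false

namespace Pool.Agent.Y217.HK

open MeasureTheory Filter Topology Set

theorem P_pos : ∀ n, 1 ≤ P n
  | 0 => le_refl 1
  | (n + 1) => by
    have := P_pos n
    show 1 ≤ P n * ((2 * P n) ^ (2 * (n + 1)) + 1)
    exact Nat.mul_pos this (Nat.succ_pos _)

theorem P_succ (n : ℕ) : P (n + 1) = P n * (L n + 1) := rfl

theorem L_pos (n : ℕ) : 1 ≤ L n := Nat.one_le_pow _ _ (by have := P_pos n; omega)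

theorem P_mono : Monotone P := by
  refine monotone_nat_of_le_succ fun n => ?_
  rw [P_succ]
  exact Nat.le_mul_of_pos_right _ (Nat.succ_pos _)

theorem arith : JArith := by
  refine ⟨P_pos, L_pos, ?_, ?_, ?_, ?_, ?_⟩
  · intro n
    induction n with
    | zero => rfl
    | succ n ih => rw [Finset.prod_range_succ, ← ih, P_succ]
  · intro n
    rw [← pow_mul]
    unfold L
    congr 1
    ring
  · intro n
    have h := P_pos n
    calc P n ≤ 2 * P n := by omega
      _ = (2 * P n) ^ 1 := (pow_one _).symm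
      _ ≤ (2 * P n) ^ (n + 1) := Nat.pow_le_pow_right (by omega) (by omega)
  · intro n
    exact Nat.pow_le_pow_left (by have := P_pos n; omega) _
  · intro n m hnm
    have h1 : P (n + 1) ≤ P m := P_mono hnm
    rw [P_succ] at h1
    have h2 : L n + 1 ≤ P n * (L n + 1) := Nat.le_mul_of_pos_left _ (P_pos n)
    exact Nat.pow_le_pow_left (by omega) _

theorem ds_self (x : Z) (n : ℕ) : ds x x n = 0 := by simp [ds]

theorem ds_comm (x y : Z) (n : ℕ) : ds x y n = ds y x n := by simp only [ds]; omega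

theorem ds_tri (x y z : Z) (n : ℕ) : ds x z n ≤ ds x y n + ds y z n := by simp only [ds]; omega

/-- two-term combination -/
theorem comb2 {d d1 d2 K l : ℕ} (h : d ≤ d1 + d2) (h1 : (1 + d1) ^ (2 * K) ≤ l)
    (h2 : (1 + d2) ^ (2 * K) ≤ l) : (1 + d) ^ K ≤ l := by
  have h3 : 1 + d ≤ (1 + d1) * (1 + d2) := by nlinarith
  have h4 : ((1 + d) ^ K) ^ 2 ≤ l ^ 2 := by
    calc ((1 + d) ^ K) ^ 2 = (1 + d) ^ (2 * K) := by rw [← pow_mul, mul_comm]
      _ ≤ ((1 + d1) * (1 + d2)) ^ (2 * K) := Nat.pow_le_pow_left h3 _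
      _ = (1 + d1) ^ (2 * K) * (1 + d2) ^ (2 * K) := mul_pow _ _ _
      _ ≤ l * l := Nat.mul_le_mul h1 h2
      _ = l ^ 2 := by ring
  exact (Nat.pow_le_pow_iff_left (by norm_num)).1 h4

theorem rel : JRel := by
  refine ⟨?_, ?_, ?_, ?_⟩
  · intro b x K
    exact ⟨0, fun n _ _ => by rw [ds_self]; simpa using L_pos n⟩
  · intro b x y h K
    obtain ⟨N, hN⟩ := h K
    exact ⟨N, fun n hn hb => by rw [ds_comm]; exact hN n hn hb⟩
  · intro b x y z h h' K
    obtain ⟨N, hN⟩ := h (2 * K)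
    obtain ⟨N', hN'⟩ := h' (2 * K)
    refine ⟨max N N', fun n hn hb => ?_⟩
    exact comb2 (ds_tri x y z n) (hN n (le_trans (le_max_left _ _) hn) hb)
      (hN' n (le_trans (le_max_right _ _) hn) hb)
  · rintro b x y ⟨N, hN⟩ K
    refine ⟨N, fun n hn hb => ?_⟩
    have : ds x y n = 0 := by unfold ds; rw [hN n hn]; simp
    rw [this]
    simpa using L_pos n

end Pool.Agent.Y217.HK
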