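import Pool.Agent.Y217.HK.Stm

/-! Instances for the spaces `Z` and `Om`. -/

set_option autoImplicit false

namespace Pool.Agent.Y217.HK

open MeasureTheory Filter Topology Set TopologicalSpace

instance instPolishCantor : PolishSpace (ℕ → Bool) := by
  have : IsCompletelyMetrizableSpace (ℕ → Bool) := IsCompletelyMetrizableSpace.pi_countable
  infer_instance

instance instPolishBaire : PolishSpace (ℕ → ℕ) := by
  have : IsCompletelyMetrizableSpace (ℕ → ℕ) := IsCompletelyMetrizableSpace.pi_countable
  infer_instance

instance instPolishOm : PolishSpace Om := by
  have : IsCompletelyMetrizableSpace Om := IsCompletelyMetrizableSpace.pi_countable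
  infer_instance

instance instPolishZ : PolishSpace Z := by
  have : IsCompletelyMetrizableSpace Z := IsCompletelyMetrizableSpace.pi_countable
  infer_instance

instance instBorelZ : BorelSpace Z := inferInstance

instance instBorelOm : BorelSpace Om := inferInstance

instance instBaireZ : BaireSpace Z := inferInstance

instance instBaireOm : BaireSpace Om := inferInstance

instance instBaireCantor : BaireSpace (ℕ → Bool) := inferInstance

instance instNonemptyZ : Nonempty Z := ⟨fun _ => 0⟩

example : SecondCountableTopology Z := inferInstance
example : SecondCountableTopology Om := inferInstance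
example : CompactSpace Z := inferInstance
example : StandardBorelSpace Z := inferInstance
example : BorelSpace (ℕ → Bool) := inferInstance
example : BorelSpace (ℕ → ℕ) := inferInstance
example : BorelSpace ((ℕ → Bool) × (ℕ → ℕ)) := inferInstance

end Pool.Agent.Y217.HK
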