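import Mathlib

/-!
# Project HK: the bireducible form of the Hjorth-Kechris conjecture is false (statement S14580)

Definitions and the statements (as `Prop`s) of the pieces of the proof.
-/

set_option autoImplicit false

namespace Pool.Agent.Y217.HK

open MeasureTheory Filter Topology Set

/-! ## The fast growing box `Z` and the relations `Rel b` -/

/-- `P n = ∏_{m<n} (L m + 1)`. -/
def P : ℕ → ℕ
  | 0 => 1
  | (n + 1) => P n * ((2 * P n) ^ (2 * (n + 1)) + 1)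

/-- the side lengths -/
def L (n : ℕ) : ℕ := (2 * P n) ^ (2 * (n + 1))

/-- the compact space `∏ {0, ..., L n}` -/
abbrev Z : Type := ∀ n : ℕ, Fin (L n + 1)

/-- the distance of the `n`-th coordinates -/
def ds (x y : Z) (n : ℕ) : ℕ := ((x n : ℕ) - (y n : ℕ)) + ((y n : ℕ) - (x n : ℕ))

/-- `x` and `y` are close on `b`: `(1 + |x n - y n|) = (L n)^{o(1)}` along `n ∈ b`. -/
def Rel (b : Set ℕ) (x y : Z) : Prop :=
  ∀ K : ℕ, ∃ N : ℕ, ∀ n : ℕ, N ≤ n → n ∈ b → (1 + ds x y n) ^ K ≤ L n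

/-- tail equality -/
def Tl {A : ℕ → Type} (x y : ∀ n, A n) : Prop := ∃ N : ℕ, ∀ n : ℕ, N ≤ n → x n = y n

/-- the almost disjoint family of sets of codes of the initial segments of `x` -/
def fam (x : ℕ → Bool) : Set ℕ :=
  Set.range fun l : ℕ => Encodable.encode (List.ofFn fun i : Fin l => x i)

/-- `s` below `n`, `y` from `n` on -/
def splice (n : ℕ) (s y : Z) : Z := fun i => if i < n then s i else y i

/-- `e` on `S`, `z` off `S` -/
noncomputable def put (S : Set ℕ) (z e : Z) : Z := by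
  classical exact fun i => if i ∈ S then e i else z i

/-- the space `(2^ℕ)^ℕ` -/
abbrev Om : Type := ℕ → ℕ → Bool

/-- add `g` to the row `k` of `x` -/
def addRow (k : ℕ) (g : ℕ → Bool) (x : Om) : Om :=
  fun i j => if i = k then xor (x i j) (g j) else x i j

/-! ## Arithmetic of `L` and `Rel` -/

def JArith : Prop :=
  (∀ n, 1 ≤ P n) ∧ (∀ n, 1 ≤ L n) ∧ (∀ n, P n = ∏ m ∈ Finset.range n, (L m + 1)) ∧
  (∀ n, L n = ((2 * P n) ^ (n + 1)) ^ 2) ∧ (∀ n, P n ≤ (2 * P n) ^ (n + 1)) ∧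
  (∀ n, 2 ^ (2 * (n + 1)) ≤ L n) ∧ (∀ n m, n < m → (L n + 1) ^ (2 * (m + 1)) ≤ L m)

def JRel : Prop :=
  (∀ (b : Set ℕ) (x : Z), Rel b x x) ∧ (∀ (b : Set ℕ) (x y : Z), Rel b x y → Rel b y x) ∧
  (∀ (b : Set ℕ) (x y z : Z), Rel b x y → Rel b y z → Rel b x z) ∧
  (∀ (b : Set ℕ) (x y : Z), Tl x y → Rel b x y)

def JFam : Prop :=
  (∀ x y : ℕ → Bool, (fam x \ fam y).Finite → x = y) ∧
  (∀ n : ℕ, MeasurableSet {x : ℕ → Bool | n ∈ fam x})

/-! ## Fusion and rigidity -/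

/-- `D'`, `z`, `l`, `M` have the fusion property for `ψ` and `b`. -/
def Fus (b : Set ℕ) (ψ : Z → Z) (D' : Set Z) (z : Z) (l M : ℕ → ℕ) : Prop :=
  Monotone M ∧ (∀ n, n ≤ l n) ∧ (∀ n, n ≤ M n) ∧
  (∀ y : Z, (∀ N : ℕ, ∃ n : ℕ, N ≤ n ∧ ∀ i, n ≤ i → i < l n → y i = z i) → y ∈ D') ∧
  (∀ y ∈ D', ∀ y' ∈ D', ∀ n : ℕ, (∀ i, i < l n → y i = y' i) →
    (∀ i, n ≤ i → i < l n → y i = z i) → ∀ m, m < M n → ψ y m = ψ y' m) ∧
  (∀ y ∈ D', ∀ y' ∈ D', ∀ n : ℕ, (∀ i, n ≤ i → y i = y' i) →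
    (∀ i, n ≤ i → i < l n → y i = z i) → ∀ m, M n ≤ m → m ∈ b →
      (1 + ds (ψ y) (ψ y') m) ^ n ≤ L m)

def JFus : Prop :=
  ∀ (b : Set ℕ) (ψ : Z → Z), Measurable ψ → ∀ D : Set Z, D ∈ residual Z →
    (∀ y ∈ D, ∀ y' ∈ D, Tl y y' → Rel b (ψ y) (ψ y')) →
    ∃ (D' : Set Z) (z : Z) (l M : ℕ → ℕ), D' ⊆ D ∧ Fus b ψ D' z l M

/-- windows: with `n (k+1) ≥ l (n k + 1)`, on the window `[M (n (k-1) + 1), M (n k + 1))` the point
`ψ (put S z e)` is close to `ψ` of `z` with only the coordinate `n k` changed -/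
def JWin : Prop :=
  ∀ (b : Set ℕ) (ψ : Z → Z) (D' : Set Z) (z : Z) (l M : ℕ → ℕ), Fus b ψ D' z l M →
    ∀ n : ℕ → ℕ, (∀ k, l (n k + 1) ≤ n (k + 1)) →
      (∀ e : Z, put (Set.range n) z e ∈ D') ∧
      (∀ (e : Z) (k m : ℕ), m ∈ b → M (n k + 1) ≤ m → m < M (n (k + 1) + 1) →
        (1 + ds (ψ (put (Set.range n) z e))
          (ψ (Function.update z (n (k + 1)) (e (n (k + 1))))) m) ^ (n k + 1) ≤ L m)

/-- adjacent values give close images, eventually -/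
def JAdj : Prop :=
  ∀ (a b : Set ℕ) (ψ : Z → Z) (D' : Set Z) (z : Z) (l M : ℕ → ℕ), Fus b ψ D' z l M →
    (∀ y ∈ D', ∀ y' ∈ D', Rel a y y' → Rel b (ψ y) (ψ y')) →
    ∀ n : ℕ → ℕ, (∀ k, l (n k + 1) ≤ n (k + 1)) →
    ∀ K : ℕ, ∃ k0 : ℕ, ∀ k, k0 ≤ k → ∀ i j : Fin (L (n (k + 1)) + 1), (j : ℕ) = (i : ℕ) + 1 →
      ∀ m, m ∈ b → M (n k + 1) ≤ m → m < M (n (k + 1) + 1) →
        (1 + ds (ψ (Function.update z (n (k + 1)) i))
          (ψ (Function.update z (n (k + 1)) j)) m) ^ K ≤ L m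

/-- rigidity: on a residual set, `Rel a` reduces to `Rel b` only if `a ⊆ b` up to a finite set -/
def JRig : Prop :=
  ∀ (a b : Set ℕ) (ψ : Z → Z), Measurable ψ → ∀ D : Set Z, D ∈ residual Z →
    (∀ y ∈ D, ∀ y' ∈ D, (Rel a y y' ↔ Rel b (ψ y) (ψ y'))) → (a \ b).Finite

/-! ## Category quantifiers and generic ergodicity -/

/-- a measurable function invariant under tail equality is constant on a residual set -/
def JErg : Prop :=
  ∀ (A : ℕ → Type) [∀ i, TopologicalSpace (A i)] [BaireSpace (∀ i, A i)]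
    [MeasurableSpace (∀ i, A i)] [BorelSpace (∀ i, A i)],
    (∀ i (a b : A i), ∃ h : A i ≃ₜ A i, h a = b) →
    ∀ φ : (∀ i, A i) → ℕ → Bool, Measurable φ → (∀ x y, Tl x y → φ x = φ y) →
      ∃ c : ℕ → Bool, {x | φ x = c} ∈ residual (∀ i, A i)

/-- measurability of the category quantifier -/
def JCatQ : Prop :=
  ∀ (A W : Type) [MeasurableSpace A] [TopologicalSpace W] [PolishSpace W] [MeasurableSpace W]
    [BorelSpace W] (B : Set (A × W)), MeasurableSet B →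
      MeasurableSet {a : A | ∀ᶠ w in residual W, (a, w) ∈ B}

/-! ## `E_1` does not reduce to `Rel b` on a residual set -/

/-- every residual set contains one that is closed under adding generic rows -/
def JCl : Prop :=
  ∀ D : Set Om, D ∈ residual Om → ∃ D' : Set Om, D' ⊆ D ∧ D' ∈ residual Om ∧
    ∀ x ∈ D', ∀ k : ℕ, ∀ᶠ g in residual (ℕ → Bool), addRow k g x ∈ D'

def JQ : Prop :=
  ∀ (b : Set ℕ) (ψ : Om → Z), Measurable ψ → ∀ D : Set Om, D ∈ residual Om →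
    (∀ x ∈ D, ∀ y ∈ D, Tl x y → Rel b (ψ x) (ψ y)) →
    ∀ k K : ℕ, ∀ᶠ x in residual Om, ∃ N M : ℕ, ∀ᶠ g in residual (ℕ → Bool),
      (∀ j, j < N → g j = false) →
        ∀ m, M ≤ m → m ∈ b → (1 + ds (ψ x) (ψ (addRow k g x)) m) ^ K ≤ L m

def JE1 : Prop :=
  ∀ (b : Set ℕ) (ψ : Om → Z), Measurable ψ → ∀ D : Set Om, D ∈ residual Om →
    ¬ (∀ x ∈ D, ∀ y ∈ D, (Tl x y ↔ Rel b (ψ x) (ψ y)))

/-! ## The selector argument -/

/-- leftmost branches of pruned trees, measurably and depending only on the tree -/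
def JBranch : Prop :=
  ∀ (A : Type) [MeasurableSpace A] (T : A → Set (List ℕ)),
    (∀ s : List ℕ, MeasurableSet {a | s ∈ T a}) → (∀ a, [] ∈ T a) →
    (∀ a, ∀ s ∈ T a, ∃ n : ℕ, s ++ [n] ∈ T a) →
    ∃ y : A → (ℕ → ℕ), Measurable y ∧ (∀ a n, (List.ofFn fun i : Fin n => y a i) ∈ T a) ∧
      (∀ a a', T a = T a' → y a = y a')

def JSelA : Prop :=
  ∀ (C : Set ((ℕ → Bool) × (ℕ → ℕ))), IsClosed C →
  ∀ (W : Type) [TopologicalSpace W] [PolishSpace W] [Nonempty W] [MeasurableSpace W] [BorelSpace W]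
    (G : Type) [TopologicalSpace G] [Group G] [IsTopologicalGroup G] [PolishSpace G]
    (Y : Type) [TopologicalSpace Y] [PolishSpace Y] [MeasurableSpace Y] [BorelSpace Y]
    [MulAction G Y] [ContinuousSMul G Y]
    (f : C × W → Y) (p : Y → C), Measurable f → Measurable p →
    (∀ (c c' : C) (z : W), c.1.1 = c'.1.1 → ∃ g : G, f (c', z) = g • f (c, z)) →
    (∀ (g : G) (y : Y), (p (g • y)).1.1 = (p y).1.1) →
    (∀ c : C, ∀ᶠ z in residual W, (p (f (c, z))).1.1 = c.1.1) →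
    ∃ s : C → C, Measurable s ∧ (∀ c c' : C, c.1.1 = c'.1.1 → s c = s c') ∧
      (∀ c : C, (s c).1.1 = c.1.1)

def JSelB : Prop :=
  ∀ (C : Set ((ℕ → Bool) × (ℕ → ℕ))), IsClosed C → ∀ s : C → C, Measurable s →
    (∀ c c' : C, c.1.1 = c'.1.1 → s c = s c') → (∀ c : C, (s c).1.1 = c.1.1) →
    MeasurableSet (Prod.fst '' C)

def JNM : Prop :=
  ∃ C : Set ((ℕ → Bool) × (ℕ → ℕ)), IsClosed C ∧ ¬ MeasurableSet (Prod.fst '' C)

end Pool.Agent.Y217.HK
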