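import Pool.Agent.Y217.HK.Arith

/-! Windows. -/

set_option autoImplicit false

namespace Pool.Agent.Y217.HK

open MeasureTheory Filter Topology Set

theorem put_mem {S : Set ℕ} {z e : Z} {i : ℕ} (h : i ∈ S) : put S z e i = e i := by
  simp [put, h]

theorem put_not_mem {S : Set ℕ} {z e : Z} {i : ℕ} (h : i ∉ S) : put S z e i = z i := by
  simp [put, h]

theorem win : JWin := by
  rintro b ψ D' z l M ⟨hM, hl, hMn, F1, F2, F3⟩ n hn
  have hstep : ∀ k, n k < n (k + 1) := fun k => by
    have h1 := hl (n k + 1)
    have h2 := hn k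
    omega
  have hsm : StrictMono n := strictMono_nat_of_lt_succ hstep
  have hfree : ∀ k i, n k + 1 ≤ i → i < l (n k + 1) → i ∉ Set.range n := by
    rintro k i h1 h2 ⟨j, rfl⟩
    have h3 : k < j := hsm.lt_iff_lt.1 (by omega)
    have h4 : n (k + 1) ≤ n j := hsm.monotone h3
    have := hn k
    omega
  have hput : ∀ e : Z, put (Set.range n) z e ∈ D' := by
    intro e
    refine F1 _ fun N => ⟨n N + 1, ?_, fun i h1 h2 => put_not_mem (hfree N i h1 h2)⟩
    have := hsm.id_le N
    simp only [id] at this
    omega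
  refine ⟨hput, ?_⟩
  intro e k m hmb h1 h2
  set e2 : Z := fun i => if i ≤ n (k + 1) then e i else z i with he2
  have h3 : ψ (put (Set.range n) z e) m = ψ (put (Set.range n) z e2) m := by
    refine F2 _ (hput e) _ (hput e2) (n (k + 1) + 1) ?_ ?_ m h2
    · intro i hi
      by_cases hr : i ∈ Set.range n
      · rw [put_mem hr, put_mem hr]
        obtain ⟨j, rfl⟩ := hr
        have h4 : n j ≤ n (k + 1) := by
          by_contra hcon
          exact hfree (k + 1) (n j) (by omega) hi ⟨j, rfl⟩
        simp [he2, h4]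
      · rw [put_not_mem hr, put_not_mem hr]
    · intro i hi1 hi2
      exact put_not_mem (hfree (k + 1) i hi1 hi2)
  have hy3 : Function.update z (n (k + 1)) (e (n (k + 1))) ∈ D' := by
    refine F1 _ fun N => ⟨max N (n (k + 1) + 1), le_max_left _ _, fun i hi1 hi2 => ?_⟩
    have : i ≠ n (k + 1) := by
      have := le_trans (le_max_right _ _) hi1
      omega
    rw [Function.update_of_ne this]
  have h4 := F3 _ (hput e2) _ hy3 (n k + 1) ?_ ?_ m h1 hmb
  · have h5 : ds (ψ (put (Set.range n) z e)) (ψ (Function.update z (n (k + 1)) (e (n (k + 1))))) m =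
        ds (ψ (put (Set.range n) z e2)) (ψ (Function.update z (n (k + 1)) (e (n (k + 1))))) m := by
      simp only [ds, h3]
    rw [h5]
    exact h4
  · intro i hi
    by_cases hik : i = n (k + 1)
    · subst hik
      rw [put_mem (⟨k + 1, rfl⟩ : n (k + 1) ∈ Set.range n), Function.update_self]
      simp [he2]
    · rw [Function.update_of_ne hik]
      by_cases hr : i ∈ Set.range n
      · rw [put_mem hr]
        obtain ⟨j, rfl⟩ := hr
        have h6 : k < j := hsm.lt_iff_lt.1 (by omega)
        have h7 : n (k + 1) ≤ n j := hsm.monotone h6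
        have h8 : ¬ n j ≤ n (k + 1) := by omega
        simp [he2, h8]
      · rw [put_not_mem hr]
  · intro i hi1 hi2
    exact put_not_mem (hfree k i hi1 hi2)

end Pool.Agent.Y217.HK
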